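import Pool.Agent.Helper50.AY.St

set_option autoImplicit false

namespace Pool.Agent.Helper66.AY

open Pool.Agent.Helper50.AY Pool.Agent.Helper43.GD Polynomial

theorem hUT2 (h1 : StUT1) : StUT2 := by
  intro L A _ _ Q p _ x ev hev f hf hin u hu g hg0 hgd n
  have hfd : 0 < f.natDegree := Polynomial.natDegree_pos_iff_degree_pos.2
    (Polynomial.degree_pos_of_irreducible hf)
  have hfg : ¬ f ∣ g := by
    intro hd
    have := Polynomial.natDegree_le_of_dvd hd hg0
    omega
  have hr0 : ∀ n : ℕ, (g ^ n) % f ≠ 0 := by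
    intro n h0
    rw [EuclideanDomain.mod_eq_zero] at h0
    exact hfg (hf.prime.dvd_of_dvd_pow h0)
  have hrd : ∀ n : ℕ, ((g ^ n) % f).natDegree < f.natDegree := fun n =>
    Polynomial.natDegree_mod_lt _ (by omega)
  obtain ⟨b, hbU, hb⟩ := hin g hg0 hgd
  induction n with
  | zero =>
    intro σ hσ
    have e1 : (g ^ 0) % f = 1 := by
      rw [pow_zero, Polynomial.mod_eq_self_iff hf.ne_zero]
      rw [Polynomial.degree_one]
      exact Polynomial.degree_pos_of_irreducible hf
    rw [e1, map_one, mul_one, pow_zero] at hσ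
    have : σ = 1 := Units.ext hσ
    rw [this]
    exact Q.S_one u
  | succ n ih =>
    intro σ hσ
    obtain ⟨a, haU, ha⟩ := hin _ (hr0 n) (hrd n)
    have e1 : ((b ^ n * a⁻¹ : Lˣ) : L) * ev ((g ^ n) % f) = ev g ^ n := by
      rw [← ha, ← hb, ← Units.val_pow_eq_pow_val, ← Units.val_mul]
      congr 1
      group
    have h2 := ih _ e1
    have e2 : (g ^ n % f * g) % f = g ^ (n + 1) % f := by
      rw [pow_succ]
      have hm : f ∣ g ^ n % f * g - g ^ n * g := by
        have : g ^ n % f - g ^ n = - (f * (g ^ n / f)) := by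
          have := EuclideanDomain.div_add_mod (g ^ n) f
          linear_combination this
        rw [← sub_mul, this]
        exact Dvd.dvd.mul_right ((dvd_neg).2 (dvd_mul_right _ _)) _
      have h3 : (g ^ n % f * g - g ^ n * g) % f = 0 := EuclideanDomain.mod_eq_zero.2 hm
      rw [Polynomial.sub_mod, sub_eq_zero] at h3
      exact h3
    have e3 : ((σ * (b ^ n * a⁻¹)⁻¹ : Lˣ) : L) * ev ((g ^ n % f * g) % f) =
        ev (g ^ n % f) * ev g := by
      rw [e2]
      rw [Units.val_mul]
      calc (σ : L) * (((b ^ n * a⁻¹)⁻¹ : Lˣ) : L) * ev (g ^ (n + 1) % f)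
          = (((b ^ n * a⁻¹)⁻¹ : Lˣ) : L) * ((σ : L) * ev (g ^ (n + 1) % f)) := by ring
        _ = ((((b ^ n * a⁻¹)⁻¹ : Lˣ) * b ^ (n + 1) : Lˣ) : L) := by
            rw [hσ, ← hb, Units.val_mul, Units.val_pow_eq_pow_val]
        _ = ((a * b : Lˣ) : L) := by
            congr 1
            rw [mul_inv_rev, inv_inv, pow_succ]
            group
        _ = _ := by rw [Units.val_mul, ha, hb]
    have h4 := h1 L A Q p x ev hev f hf hin u hu (g ^ n % f) g (hr0 n) hg0 (hrd n) hgd _ e3
    have h5 := Q.S_mul h2 h4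
    have e6 : (b ^ n * a⁻¹) * (σ * (b ^ n * a⁻¹)⁻¹) = σ := by
      rw [mul_comm σ, mul_inv_cancel_left]
    rwa [e6] at h5

end Pool.Agent.Helper66.AY
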